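import Pool.Agent.helper11.RPQ.SpecG

set_option autoImplicit false

open scoped MatrixGroups ContDiff Topology UpperHalfPlane ComplexConjugate
open UpperHalfPlane MeasureTheory Filter Set

namespace Pool.Agent.RPQ

open Pool.Agent.RS
open Pool.Agent.MS (BA BB st pf gk Dk amk)

theorem BLK_proof (hMCV : MCV_stmt) (hLAT : LAT_stmt) : BLK_stmt := by
  classical
  intro Γ C η ε N hΓ hC hη hη' hε hε'
  obtain ⟨C1, R1, hC1, hR1, h1⟩ := hMCV C η ε N hC hη hη' hε hε'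
  obtain ⟨C2, R2, hC2, hR2, h2⟩ := hLAT Γ C1 η ε hΓ hC1 hη hη' hε hε'
  refine ⟨max 1 (C2 * C1), max R1 R2, le_max_left _ _, le_max_of_le_left hR1, ?_⟩
  intro R hR n hn9 hnN g h
  have hRR1 : R1 ≤ R := (le_max_left _ _).trans hR
  have hRR2 : R2 ≤ R := (le_max_right _ _).trans hR
  have hR1' : 1 ≤ R := hR1.trans hRR1
  have hR0 : 0 < R := by linarith
  have hlog : 0 ≤ Real.log R := Real.log_nonneg hR1'
  have hn9' : (9 : ℝ) ≤ (n : ℝ) + 1 := by exact_mod_cast hn9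
  have htau : tau R = Real.log R / 8 := by unfold tau; ring
  have ht : 9 / 8 * Real.log R ≤ (n + 1) * tau R := by
    rw [htau]
    nlinarith
  obtain ⟨hfin, hcard⟩ := h2 R ((n + 1) * tau R) g h hRR2 ht
  obtain ⟨S, hS⟩ : ∃ S : Set Γ, S = {γ : Γ | g⁻¹ * ((γ : SL(2, ℝ)) * h) ∈ SN C1 η ε R ((n + 1) * tau R)} := ⟨_, rfl⟩
  rw [← hS] at hfin hcard
  have hz : ∀ γ ∉ hfin.toFinset, mc (mj C η ε R) (tau R) n g ((γ : SL(2, ℝ)) * h) = 0 := by
    intro γ hγ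
    by_contra hne
    apply hγ
    rw [Set.Finite.mem_toFinset, hS]
    exact (h1 R hRR1 n hnN g ((γ : SL(2, ℝ)) * h)).2 hne
  rw [tsum_eq_sum hz]
  refine (Finset.sum_le_card_nsmul hfin.toFinset (fun γ : Γ => mc (mj C η ε R) (tau R) n g ((γ : SL(2, ℝ)) * h)) _
    fun γ _ => (h1 R hRR1 n hnN g ((γ : SL(2, ℝ)) * h)).1).trans ?_
  rw [nsmul_eq_mul, ← ENNReal.ofReal_natCast, ← ENNReal.ofReal_mul (Nat.cast_nonneg _)]
  refine ENNReal.ofReal_le_ofReal ?_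
  have hnc : (hfin.toFinset.card : ℝ) ≤ C2 * Real.exp ((n + 1) * tau R) * R ^ (-1 + ε) := by
    rw [← Set.ncard_eq_toFinset_card S hfin]
    exact hcard
  have hM : 0 ≤ C1 * R ^ (1 - ((n : ℝ) + 1) / 16 + η + n * ε) := by positivity
  refine (mul_le_mul_of_nonneg_right hnc hM).trans ?_
  have he : Real.exp ((n + 1) * tau R) = R ^ (((n : ℝ) + 1) / 8) := by
    rw [Real.rpow_def_of_pos hR0, htau]
    ring_nf
  rw [he]
  have hexp : R ^ (((n : ℝ) + 1) / 8) * R ^ (-1 + ε) * R ^ (1 - ((n : ℝ) + 1) / 16 + η + n * ε) =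
      R ^ (((n : ℝ) + 1) / 16 + η + (n + 1) * ε) := by
    rw [← Real.rpow_add hR0, ← Real.rpow_add hR0]
    ring_nf
  have h3 : C2 * R ^ (((n : ℝ) + 1) / 8) * R ^ (-1 + ε) * (C1 * R ^ (1 - ((n : ℝ) + 1) / 16 + η + n * ε)) =
      C2 * C1 * R ^ (((n : ℝ) + 1) / 16 + η + (n + 1) * ε) := by
    rw [← hexp]
    ring
  rw [h3]
  exact mul_le_mul_of_nonneg_right (le_max_right _ _) (by positivity)

end Pool.Agent.RPQ
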