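import Pool.Agent.helper98.RPQ.SpecR
import Pool.Agent.helper62.RS.All

set_option autoImplicit false

open scoped MatrixGroups ContDiff Topology UpperHalfPlane ComplexConjugate ENNReal
open UpperHalfPlane MeasureTheory Filter Set

namespace Pool.Agent.RPQ

open Pool.Agent.RS
open Pool.Agent.MS (BA BB st pf gk Dk amk)

private theorem CAE_left {f : SL(2, ℝ) → SL(2, ℝ) → ENNReal} (hf : Measurable (Function.uncurry f)) (g : SL(2, ℝ)) :
    Measurable (f g) := hf.comp measurable_prodMk_left

private theorem CAE_right {f : SL(2, ℝ) → SL(2, ℝ) → ENNReal} (hf : Measurable (Function.uncurry f)) (h : SL(2, ℝ)) :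
    Measurable fun p => f p h := hf.comp measurable_prodMk_right

private theorem CAE_cat (hUNE : UNE_stmt) : ∀ (a b : ℕ) (s : ℕ → SL(2, ℝ) → SL(2, ℝ) → ENNReal),
    (∀ j, Measurable (Function.uncurry (s j))) → ∀ g h : SL(2, ℝ),
    pM (a + 1 + b) s g h = ∫⁻ p, pM a s g p * pM b (fun j => s (a + 1 + j)) p h ∂mG := by
  have : SigmaFinite mG := A_GMG.2.2.1
  intro a
  induction a with
  | zero =>
    intro b s hs g h
    have e1 : 0 + 1 + b = b + 1 := by omega
    have e2 : (fun j => s (0 + 1 + j)) = fun j => s (j + 1) := by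
      funext j
      have e3 : 0 + 1 + j = j + 1 := by omega
      rw [e3]
    rw [e1, e2]
    rfl
  | succ a ih =>
    intro b s hs g h
    have e1 : a + 1 + 1 + b = (a + 1 + b) + 1 := by omega
    have e2 : (fun j => s (a + 1 + 1 + j)) = fun j => (fun i => s (i + 1)) (a + 1 + j) := by
      funext j
      have e3 : a + 1 + 1 + j = a + 1 + j + 1 := by omega
      rw [e3]
    rw [e1, e2]
    have hs' : ∀ j, Measurable (Function.uncurry ((fun i => s (i + 1)) j)) := fun j => hs (j + 1)
    have hs'' : ∀ j, Measurable (Function.uncurry ((fun j => (fun i => s (i + 1)) (a + 1 + j)) j)) :=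
      fun j => hs (a + 1 + j + 1)
    have hm1 : Measurable (Function.uncurry (pM a (fun i => s (i + 1)))) := (hUNE _ hs' a).1
    have hm2 : Measurable (Function.uncurry (pM b (fun j => (fun i => s (i + 1)) (a + 1 + j)))) := (hUNE _ hs'' b).1
    have step : pM (a + 1 + b + 1) s g h = ∫⁻ q, s 0 g q * pM (a + 1 + b) (fun i => s (i + 1)) q h ∂mG := rfl
    rw [step]
    have h1 : ∀ q, s 0 g q * pM (a + 1 + b) (fun i => s (i + 1)) q h =
        ∫⁻ p, s 0 g q * (pM a (fun i => s (i + 1)) q p * pM b (fun j => (fun i => s (i + 1)) (a + 1 + j)) p h) ∂mG := by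
      intro q
      rw [ih b (fun i => s (i + 1)) hs' q h, lintegral_const_mul]
      exact (CAE_left hm1 q).mul (CAE_right hm2 h)
    rw [lintegral_congr h1, lintegral_lintegral_swap]
    swap
    · refine Measurable.aemeasurable ?_
      refine ((CAE_left (hs 0) g).comp measurable_fst).mul ?_
      exact hm1.mul ((CAE_right hm2 h).comp measurable_snd)
    refine lintegral_congr fun p => ?_
    have h2 : pM (a + 1) s g p = ∫⁻ q, s 0 g q * pM a (fun i => s (i + 1)) q p ∂mG := rfl
    rw [h2, ← lintegral_mul_const]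
    · refine lintegral_congr fun q => ?_
      rw [mul_assoc]
    · exact (CAE_left (hs 0) g).mul (CAE_right hm1 p)

private theorem CAE_y (hUNE : UNE_stmt) : ∀ (n : ℕ) (s : ℕ → SL(2, ℝ) → SL(2, ℝ) → ENNReal),
    (∀ j, Measurable (Function.uncurry (s j))) → ∀ (y : SL(2, ℝ) → ENNReal) (g h : SL(2, ℝ)),
    pM n (fun j g h => s j g h * (if j = n then y h else 1)) g h = pM n s g h * y h := by
  intro n
  induction n with
  | zero =>
    intro s hs y g h
    show s 0 g h * (if (0 : ℕ) = 0 then y h else 1) = s 0 g h * y h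
    rw [if_pos rfl]
  | succ n ih =>
    intro s hs y g h
    have hs' : ∀ j, Measurable (Function.uncurry ((fun i => s (i + 1)) j)) := fun j => hs (j + 1)
    have e1 : (fun j g h => s (j + 1) g h * (if j + 1 = n + 1 then y h else 1)) =
        fun j g h => (fun i => s (i + 1)) j g h * (if j = n then y h else 1) := by
      funext j g h
      simp only [Nat.add_right_cancel_iff]
    have step : pM (n + 1) (fun j g h => s j g h * (if j = n + 1 then y h else 1)) g h =
        ∫⁻ p, (s 0 g p * (if 0 = n + 1 then y p else 1)) *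
          pM n (fun j g h => s (j + 1) g h * (if j + 1 = n + 1 then y h else 1)) p h ∂mG := rfl
    rw [step, e1]
    have h1 : ∀ p, (s 0 g p * (if 0 = n + 1 then y p else 1)) *
        pM n (fun j g h => (fun i => s (i + 1)) j g h * (if j = n then y h else 1)) p h =
        s 0 g p * pM n (fun i => s (i + 1)) p h * y h := by
      intro p
      rw [ih (fun i => s (i + 1)) hs' y p h, if_neg (by omega), mul_one, mul_assoc]
    rw [lintegral_congr h1, lintegral_mul_const]
    · rfl
    · exact (CAE_left (hs 0) g).mul (CAE_right (hUNE _ hs' n).1 h)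

private theorem CAE_x (hUNE : UNE_stmt) (n : ℕ) (s : ℕ → SL(2, ℝ) → SL(2, ℝ) → ENNReal)
    (hs : ∀ j, Measurable (Function.uncurry (s j))) (x : SL(2, ℝ) → ENNReal) (g h : SL(2, ℝ)) :
    pM n (fun j g h => (if j = 0 then x g else 1) * s j g h) g h = x g * pM n s g h := by
  cases n with
  | zero =>
    show (if (0 : ℕ) = 0 then x g else 1) * s 0 g h = x g * s 0 g h
    rw [if_pos rfl]
  | succ n =>
    have hs' : ∀ j, Measurable (Function.uncurry ((fun i => s (i + 1)) j)) := fun j => hs (j + 1)
    have e1 : (fun j g h => (if j + 1 = 0 then x g else 1) * s (j + 1) g h) = fun j g h => s (j + 1) g h := by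
      funext j g h
      rw [if_neg (by omega), one_mul]
    have step : pM (n + 1) (fun j g h => (if j = 0 then x g else 1) * s j g h) g h =
        ∫⁻ p, ((if (0 : ℕ) = 0 then x g else 1) * s 0 g p) *
          pM n (fun j g h => (if j + 1 = 0 then x g else 1) * s (j + 1) g h) p h ∂mG := rfl
    rw [step, e1]
    have h1 : ∀ p, ((if (0 : ℕ) = 0 then x g else 1) * s 0 g p) * pM n (fun j g h => s (j + 1) g h) p h =
        x g * (s 0 g p * pM n (fun i => s (i + 1)) p h) := by
      intro p
      rw [if_pos rfl, mul_assoc]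
    rw [lintegral_congr h1, lintegral_const_mul]
    · rfl
    · exact (CAE_left (hs 0) g).mul (CAE_right (hUNE _ hs' n).1 h)

theorem CAE_proof (hUNE : UNE_stmt) : CAE_stmt := by
  intro s hs
  refine ⟨fun a b g h => CAE_cat hUNE a b s hs g h, ?_⟩
  intro n x y hx hy g h
  have ht : ∀ j, Measurable (Function.uncurry ((fun (j : ℕ) (g h : SL(2, ℝ)) => (if j = 0 then x g else 1) * s j g h) j)) := by
    intro j
    have h1 : Function.uncurry ((fun (j : ℕ) (g h : SL(2, ℝ)) => (if j = 0 then x g else 1) * s j g h) j) =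
        fun p : SL(2, ℝ) × SL(2, ℝ) => (if j = 0 then x p.1 else 1) * s j p.1 p.2 := rfl
    rw [h1]
    by_cases hj : j = 0
    · simp only [if_pos hj]
      exact (hx.comp measurable_fst).mul (hs j)
    · simp only [if_neg hj, one_mul]
      exact hs j
  have h1 := CAE_y hUNE n (fun (j : ℕ) (g h : SL(2, ℝ)) => (if j = 0 then x g else 1) * s j g h) ht y g h
  have h2 := CAE_x hUNE n s hs x g h
  rw [h2] at h1
  exact h1

end Pool.Agent.RPQ
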