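import Pool.Agent.helper11.RPQ.SpecI

set_option autoImplicit false

open scoped MatrixGroups ContDiff Topology UpperHalfPlane ComplexConjugate ENNReal
open UpperHalfPlane MeasureTheory Filter Set

namespace Pool.Agent.RPQ

open Pool.Agent.RS
open Pool.Agent.MS (BA BB st pf gk Dk amk)

noncomputable section

lemma FAM_num (k n : ℕ) (hk : 1 ≤ k) :
    amp k * (1 / (k : ℝ)) ^ (-(2 * (n : ℝ))) ≤ Real.exp (((n : ℝ) + 1) ^ 2) * (1 / (k : ℝ) ^ 2) := by
  have hk0 : (0 : ℝ) < k := by exact_mod_cast hk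
  obtain ⟨x, hx⟩ : ∃ x : ℝ, x = Real.log k := ⟨_, rfl⟩
  have e1 : (1 / (k : ℝ)) ^ (-(2 * (n : ℝ))) = Real.exp (2 * n * x) := by
    rw [Real.rpow_def_of_pos (by positivity), one_div, Real.log_inv, ← hx]
    congr 1
    ring
  have e2 : 1 / (k : ℝ) ^ 2 = Real.exp (-(2 * x)) := by
    rw [Real.exp_neg, two_mul, Real.exp_add, hx, Real.exp_log hk0, one_div, pow_two]
  rw [e1, e2]
  unfold amp
  rw [← hx, ← Real.exp_add, ← Real.exp_add]
  apply Real.exp_le_exp.2
  nlinarith [sq_nonneg (x - ((n : ℝ) + 1))]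

lemma FAM_sum (a : ℝ) (n : ℕ) : Summable fun k : ℕ => a * (amp k * (1 / (k : ℝ)) ^ (-(2 * (n : ℝ)))) := by
  have h1 : Summable fun k : ℕ => Real.exp (((n : ℝ) + 1) ^ 2) * (1 / (k : ℝ) ^ 2) :=
    (Real.summable_one_div_nat_pow.2 (by norm_num)).mul_left _
  have h2 : Summable fun k : ℕ => amp k * (1 / (k : ℝ)) ^ (-(2 * (n : ℝ))) := by
    refine Summable.of_norm_bounded_eventually_nat h1 ?_
    filter_upwards [eventually_ge_atTop 1] with k hk
    have h3 : 0 ≤ amp k * (1 / (k : ℝ)) ^ (-(2 * (n : ℝ))) := by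
      unfold amp
      positivity
    rw [Real.norm_of_nonneg h3]
    exact FAM_num k n hk
  exact h2.mul_left a

theorem FAM_proof (hBMP : BMP_stmt) (hMOM : MOM_stmt) (hCKB : CKB_stmt) : FAM_stmt := by
  intro Γ hΓ
  obtain ⟨κ, hκ⟩ := hMOM.1
  obtain ⟨C0, ρ0, hC0, hρ0, hρ08, hnet⟩ := hBMP Γ κ hΓ hκ
  have hK := (hCKB κ hκ).2
  choose c hc hcK using hK
  obtain ⟨k0, hk1, hk0⟩ : ∃ k0 : ℕ, 1 ≤ k0 ∧ ∀ k : ℕ, k0 ≤ k → 1 / (k : ℝ) ≤ ρ0 := by
    refine ⟨max 1 ⌈1 / ρ0⌉₊, le_max_left _ _, fun k hk => ?_⟩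
    have h1 : 1 / ρ0 ≤ k := le_trans (Nat.le_ceil _) (by exact_mod_cast le_trans (le_max_right _ _) hk)
    have h2 : 0 < 1 / ρ0 := by positivity
    rw [div_le_iff₀ (lt_of_lt_of_le h2 h1)]
    rw [div_le_iff₀ hρ0] at h1
    linarith
  have H : ∀ k : ℕ, ∃ s : (Σ J : ℕ, (Fin J → ℍ) × (Fin J → ℍ → ℝ)),
      (k0 ≤ k → Net Γ κ (1 / (k : ℝ)) C0 s.1 s.2.1 s.2.2) ∧ (k < k0 → s.1 = 0) := by
    intro k
    by_cases h : k0 ≤ k
    · have hkpos : (0 : ℝ) < k := by
        have : 1 ≤ k := le_trans hk1 h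
        exact_mod_cast this
      obtain ⟨J, p, χ, hN⟩ := hnet (1 / (k : ℝ)) (by positivity) (hk0 k h)
      exact ⟨⟨J, p, χ⟩, fun _ => hN, fun h' => absurd h (not_le.2 h')⟩
    · exact ⟨⟨0, fun j => j.elim0, fun j => j.elim0⟩, fun h' => absurd h' h, fun _ => rfl⟩
  choose s hs1 hs2 using H
  refine ⟨κ, C0, k0, fun k => (s k).1, fun k => (s k).2.1, fun k => (s k).2.2, ?_⟩
  refine { mo := hκ, c0 := hC0.le, k1 := hk1, zero := hs2, net := hs1, sum := ?_ }
  intro n
  refine ⟨fun k => (c n * C0) * (amp k * (1 / (k : ℝ)) ^ (-(2 * (n : ℝ)))), FAM_sum _ n, ?_, ?_⟩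
  · intro k
    have := hc n
    unfold amp
    positivity
  · intro k ξ hξ
    by_cases h : k0 ≤ k
    · have hkpos : (0 : ℝ) < k := by
        have : 1 ≤ k := le_trans hk1 h
        exact_mod_cast this
      have hk1' : 1 / (k : ℝ) ≤ 1 := by
        rw [div_le_one hkpos]
        have : 1 ≤ k := le_trans hk1 h
        exact_mod_cast this
      have ha : 0 < amp k := by
        unfold amp
        positivity
      obtain ⟨V0, v1, v2, v3⟩ := (hs1 k h).mol ξ hξ
      have h1 : (fun z => amp k * VV (s k).2.2 ξ z) = QU.conv (mo κ (1 / (k : ℝ))) (fun z => amp k * V0 z) := by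
        funext z
        have h2 : VV (s k).2.2 ξ z = QU.conv (mo κ (1 / (k : ℝ))) V0 z := v3 z
        rw [h2]
        unfold QU.conv
        rw [← integral_const_mul]
        refine integral_congr_ae (ae_of_all _ fun w => ?_)
        simp only [smul_eq_mul]
        ring
      have h3 : CkB n (fun z => amp k * VV (s k).2.2 ξ z) (c n * (amp k * C0) * (1 / (k : ℝ)) ^ (-(2 * (n : ℝ)))) := by
        rw [h1]
        refine hcK n (1 / (k : ℝ)) (amp k * C0) _ (by positivity) hk1' (continuous_const.mul v1.1) fun z => ?_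
        rw [abs_mul, abs_of_pos ha]
        exact mul_le_mul_of_nonneg_left (v2 z) ha.le
      have h4 : c n * (amp k * C0) * (1 / (k : ℝ)) ^ (-(2 * (n : ℝ))) =
          (c n * C0) * (amp k * (1 / (k : ℝ)) ^ (-(2 * (n : ℝ)))) := by ring
      rw [h4] at h3
      exact h3
    · have h0 : (s k).1 = 0 := hs2 k (not_le.1 h)
      have : IsEmpty (Fin (s k).1) := by
        rw [h0]
        infer_instance
      have h1 : (fun z => amp k * VV (s k).2.2 ξ z) = fun _ : ℍ => (0 : ℝ) := by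
        funext z
        unfold VV
        rw [Finset.univ_eq_empty, Finset.sum_empty, mul_zero]
      intro g
      show ‖iteratedFDeriv ℝ n (QU.onC (fun z : ℍ => amp k * VV (s k).2.2 ξ (g • z))) (I : ℂ)‖ ≤ _
      have h2 : (fun z : ℍ => amp k * VV (s k).2.2 ξ (g • z)) = fun _ : ℍ => (0 : ℝ) := by
        funext z
        exact congrFun h1 (g • z)
      rw [h2]
      have h3 : QU.onC (fun _ : ℍ => (0 : ℝ)) = fun _ : ℂ => (0 : ℝ) := rfl
      rw [h3, iteratedFDeriv_fun_zero]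
      simp only [Pi.zero_apply, norm_zero]
      have := hc n
      unfold amp
      positivity

end

end Pool.Agent.RPQ
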